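import Pool.Agent.H93.ES.Targets
import Pool.Agent.H93.EB.Basic

/-!
# MP_c59857_nt, row ABL: weights of bounded variation
-/

set_option autoImplicit false

open Finset Pool.Agent.H18.MR Pool.Agent.H93.DE Pool.Agent.H6.N4D Pool.Agent.H93
  Pool.Agent.H93.ES

namespace Pool.Agent.H1.ES

lemma sum_dvd (q n₀ : ℕ) (hq : 0 < q) : ∀ L : ℕ,
    (∑ t ∈ range L, if q ∣ n₀ + t then q else 0) + q * ((n₀ + q - 1) / q) =
      q * ((n₀ + L + q - 1) / q) := by
  intro L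
  induction L with
  | zero => simp
  | succ L ih =>
    rw [sum_range_succ]
    have h1 : n₀ + (L + 1) + q - 1 = (n₀ + L + q - 1) + 1 := by omega
    have h2 : n₀ + L + q - 1 + 1 = n₀ + L + q := by omega
    have h3 : (q ∣ n₀ + L + q) ↔ (q ∣ n₀ + L) := Nat.dvd_add_self_right
    rw [h1, Nat.succ_div, h2, mul_add, ← ih]
    by_cases h4 : q ∣ n₀ + L
    · rw [if_pos h4, if_pos (h3.2 h4)]; ring
    · rw [if_neg h4, if_neg (fun h => h4 (h3.1 h))]; ring

lemma sum_dvd_le (q n₀ L : ℕ) (hq : 0 < q) :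
    (∑ t ∈ range L, if q ∣ n₀ + t then q else 0) ≤ L + q := by
  have h1 := sum_dvd q n₀ hq L
  have h2 : q * ((n₀ + L + q - 1) / q) ≤ n₀ + L + q - 1 := Nat.mul_div_le _ _
  have h3 : n₀ + q - 1 < q * ((n₀ + q - 1) / q) + q := by
    have := Nat.lt_mul_div_succ (n₀ + q - 1) hq
    rwa [mul_add, mul_one] at this
  omega

lemma sum_DR (q n₀ L : ℕ) (hq : 0 < q) :
    ∑ t ∈ range L, |DR q (n₀ + t)| ≤ 2 * L + q := by
  have h1 : ∀ t ∈ range L, |DR q (n₀ + t)| ≤ ((if q ∣ n₀ + t then q else 0 : ℕ) : ℝ) + 1 := by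
    intro t _
    unfold DR
    by_cases h : q ∣ n₀ + t
    · rw [if_pos h, if_pos h]
      have h2 : (0 : ℝ) ≤ q := by positivity
      rw [abs_le]
      constructor <;> linarith
    · rw [if_neg h, if_neg h]
      simp
  have h2 : ((∑ t ∈ range L, if q ∣ n₀ + t then q else 0 : ℕ) : ℝ) ≤ L + q := by
    exact_mod_cast sum_dvd_le q n₀ L hq
  calc ∑ t ∈ range L, |DR q (n₀ + t)|
      ≤ ∑ t ∈ range L, (((if q ∣ n₀ + t then q else 0 : ℕ) : ℝ) + 1) := sum_le_sum h1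
    _ = ((∑ t ∈ range L, if q ∣ n₀ + t then q else 0 : ℕ) : ℝ) + L := by
        rw [sum_add_distrib]; push_cast; simp
    _ ≤ 2 * L + q := by linarith

lemma wt_nonneg (m K t : ℕ) : 0 ≤ wt m K t := by unfold wt; positivity

lemma wt_le_one (m K t : ℕ) : wt m K t ≤ 1 := by
  unfold wt
  rw [div_le_one (by positivity)]
  have h1 : ((range K).filter (fun p => p ≤ t ∧ t < p + 2 ^ m)).card ≤ 2 ^ m := by
    calc ((range K).filter (fun p => p ≤ t ∧ t < p + 2 ^ m)).card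
        ≤ (Icc (t + 1 - 2 ^ m) t).card := by
          apply card_le_card
          intro p hp
          rw [mem_filter] at hp
          rw [mem_Icc]
          omega
      _ ≤ 2 ^ m := by
          rw [Nat.card_Icc]
          have : 0 < 2 ^ m := by positivity
          generalize 2 ^ m = M at *
          omega
  exact_mod_cast h1

lemma wt_one (m K t : ℕ) (h1 : 2 ^ m ≤ t) (h2 : t < K) : wt m K t = 1 := by
  unfold wt
  have h3 : (range K).filter (fun p => p ≤ t ∧ t < p + 2 ^ m) = Icc (t + 1 - 2 ^ m) t := by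
    ext p
    rw [mem_filter, mem_Icc, mem_range]
    have : 0 < 2 ^ m := by positivity
    generalize 2 ^ m = M at *
    omega
  rw [h3, Nat.card_Icc]
  have h4 : t + 1 - (t + 1 - 2 ^ m) = 2 ^ m := by
    generalize 2 ^ m = M at *
    omega
  rw [h4]
  push_cast
  exact div_self (by positivity)

lemma wt_zero (m K t : ℕ) (h : K + 2 ^ m ≤ t) : wt m K t = 0 := by
  unfold wt
  have h3 : (range K).filter (fun p => p ≤ t ∧ t < p + 2 ^ m) = ∅ := by
    ext p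
    rw [mem_filter, mem_range]
    simp only [notMem_empty, iff_false]
    omega
  rw [h3]; simp

/-- the weighted sum is close to the partial sum -/
lemma wsum (F : ℕ → ℂ) (m K A : ℕ) (B : ℝ) (hKA : K ≤ A)
    (hF : ∀ n₀, ∑ t ∈ range (2 ^ m), ‖F (n₀ + t)‖ ≤ B) :
    ‖∑ t ∈ range A, (wt m K t : ℂ) * F t - ∑ t ∈ range K, F t‖ ≤ 2 * B := by
  have h1 : ∑ t ∈ range K, F t = ∑ t ∈ range A, if t < K then F t else 0 := by
    rw [← sum_filter]
    apply sum_congr _ fun _ _ => rfl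
    ext t
    rw [mem_filter, mem_range, mem_range]
    omega
  rw [h1, ← sum_sub_distrib]
  have h2 : ∀ t, ‖(wt m K t : ℂ) * F t - (if t < K then F t else 0)‖ ≤
      (if t < 2 ^ m then ‖F t‖ else 0) + (if K ≤ t ∧ t < K + 2 ^ m then ‖F t‖ else 0) := by
    intro t
    have h0 := wt_nonneg m K t
    have h00 := wt_le_one m K t
    have hn : 0 ≤ ‖F t‖ := norm_nonneg _
    by_cases hK : t < K
    · rw [if_pos hK, if_neg (by omega : ¬ (K ≤ t ∧ t < K + 2 ^ m)), add_zero]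
      by_cases hm : t < 2 ^ m
      · rw [if_pos hm]
        have e1 : (wt m K t : ℂ) * F t - F t = ((wt m K t - 1 : ℝ) : ℂ) * F t := by
          push_cast; ring
        rw [e1, norm_mul, Complex.norm_real, Real.norm_eq_abs, abs_of_nonpos (by linarith)]
        nlinarith
      · rw [if_neg hm, wt_one m K t (by omega) hK]
        simp
    · rw [if_neg hK, sub_zero, norm_mul, Complex.norm_real, Real.norm_eq_abs, abs_of_nonneg h0]
      by_cases hk : t < K + 2 ^ m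
      · rw [if_pos (⟨by omega, hk⟩ : K ≤ t ∧ t < K + 2 ^ m)]
        have e2 : 0 ≤ (if t < 2 ^ m then ‖F t‖ else 0) := by split_ifs <;> linarith
        nlinarith
      · rw [wt_zero m K t (by omega), zero_mul]
        positivity
  calc ‖∑ t ∈ range A, ((wt m K t : ℂ) * F t - (if t < K then F t else 0))‖
      ≤ ∑ t ∈ range A, ‖(wt m K t : ℂ) * F t - (if t < K then F t else 0)‖ := norm_sum_le _ _
    _ ≤ ∑ t ∈ range A, ((if t < 2 ^ m then ‖F t‖ else 0) +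
          (if K ≤ t ∧ t < K + 2 ^ m then ‖F t‖ else 0)) := sum_le_sum fun t _ => h2 t
    _ = ∑ t ∈ (range A).filter (fun t => t < 2 ^ m), ‖F t‖ +
          ∑ t ∈ (range A).filter (fun t => K ≤ t ∧ t < K + 2 ^ m), ‖F t‖ := by
        rw [sum_add_distrib, sum_filter, sum_filter]
    _ ≤ ∑ t ∈ range (2 ^ m), ‖F t‖ + ∑ t ∈ Ico K (K + 2 ^ m), ‖F t‖ := by
        apply add_le_add
        · apply sum_le_sum_of_subset_of_nonneg
          · intro t ht
            rw [mem_filter] at ht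
            exact mem_range.2 ht.2
          · intro t _ _; exact norm_nonneg _
        · apply sum_le_sum_of_subset_of_nonneg
          · intro t ht
            rw [mem_filter] at ht
            exact mem_Ico.2 ht.2
          · intro t _ _; exact norm_nonneg _
    _ ≤ B + B := by
        apply add_le_add
        · have := hF 0
          simpa using this
        · rw [sum_Ico_eq_sum_range]
          have := hF K
          simpa using this
    _ = 2 * B := by ring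

/-- the square of the mean over the samples is at most the mean of the squares -/
lemma sq_mean (R D : ℕ) (hD : 0 < D) (z : (Fin R → Fin D) → ℂ) :
    ‖(∑ e, z e) / ((D : ℂ)) ^ R‖ ^ 2 ≤ avE R D (fun e => ‖z e‖ ^ 2) := by
  unfold avE
  have hD0 : (0 : ℝ) < (D : ℝ) ^ R := by
    have : (0 : ℝ) < D := by exact_mod_cast hD
    positivity
  have h1 : ‖((D : ℂ)) ^ R‖ = (D : ℝ) ^ R := by
    rw [norm_pow, Complex.norm_natCast]
  rw [norm_div, h1, div_pow, div_le_div_iff₀ (by positivity) hD0]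
  have h2 : ‖∑ e, z e‖ ≤ ∑ e, ‖z e‖ := norm_sum_le _ _
  have h3 : (∑ e, ‖z e‖) ^ 2 ≤ (D : ℝ) ^ R * ∑ e, ‖z e‖ ^ 2 := by
    have := sq_sum_le_card_mul_sum_sq (s := (univ : Finset (Fin R → Fin D)))
      (f := fun e => ‖z e‖)
    have hc : ((univ : Finset (Fin R → Fin D)).card : ℝ) = (D : ℝ) ^ R := by
      rw [card_univ, Fintype.card_fun, Fintype.card_fin, Fintype.card_fin]
      push_cast; rfl
    rwa [hc] at this
  have h4 : ‖∑ e, z e‖ ^ 2 ≤ (D : ℝ) ^ R * ∑ e, ‖z e‖ ^ 2 :=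
    (pow_le_pow_left₀ (norm_nonneg _) h2 2).trans h3
  calc ‖∑ e, z e‖ ^ 2 * (D : ℝ) ^ R ≤ ((D : ℝ) ^ R * ∑ e, ‖z e‖ ^ 2) * (D : ℝ) ^ R :=
        mul_le_mul_of_nonneg_right h4 hD0.le
    _ = (∑ e, ‖z e‖ ^ 2) * ((D : ℝ) ^ R) ^ 2 := by ring

/-- summation by parts -/
lemma abel (F g : ℕ → ℂ) (n : ℕ) (V Mx : ℝ) (hn : 0 < n) (hg : ∀ t < n, ‖g t‖ ≤ 1)
    (hV : ∑ t ∈ range (n - 1), ‖g (t + 1) - g t‖ ≤ V)
    (hM : ∀ t ≤ n, ‖∑ s ∈ range t, F s‖ ≤ Mx) :
    ‖∑ t ∈ range n, F t * g t‖ ≤ (1 + V) * Mx := by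
  have hM0 : 0 ≤ Mx := (norm_nonneg _).trans (hM 0 (by omega))
  have h0 : ∑ t ∈ range n, F t * g t = g (n - 1) * ∑ s ∈ range n, F s -
      ∑ t ∈ range (n - 1), (g (t + 1) - g t) * ∑ s ∈ range (t + 1), F s := by
    have := sum_range_by_parts (R := ℂ) (M := ℂ) g F n
    simp only [smul_eq_mul] at this
    rw [← this]
    exact sum_congr rfl fun t _ => mul_comm _ _
  rw [h0]
  calc ‖g (n - 1) * ∑ s ∈ range n, F s -
      ∑ t ∈ range (n - 1), (g (t + 1) - g t) * ∑ s ∈ range (t + 1), F s‖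
      ≤ ‖g (n - 1) * ∑ s ∈ range n, F s‖ +
        ‖∑ t ∈ range (n - 1), (g (t + 1) - g t) * ∑ s ∈ range (t + 1), F s‖ := norm_sub_le _ _
    _ ≤ 1 * Mx + V * Mx := by
        apply add_le_add
        · rw [norm_mul]
          exact mul_le_mul (hg _ (by omega)) (hM n le_rfl) (norm_nonneg _) zero_le_one
        · calc ‖∑ t ∈ range (n - 1), (g (t + 1) - g t) * ∑ s ∈ range (t + 1), F s‖
              ≤ ∑ t ∈ range (n - 1), ‖(g (t + 1) - g t) * ∑ s ∈ range (t + 1), F s‖ :=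
                norm_sum_le _ _
            _ ≤ ∑ t ∈ range (n - 1), ‖g (t + 1) - g t‖ * Mx := by
                apply sum_le_sum
                intro t ht
                rw [mem_range] at ht
                rw [norm_mul]
                exact mul_le_mul_of_nonneg_left (hM _ (by omega)) (norm_nonneg _)
            _ = (∑ t ∈ range (n - 1), ‖g (t + 1) - g t‖) * Mx := by rw [sum_mul]
            _ ≤ V * Mx := mul_le_mul_of_nonneg_right hV hM0
    _ = (1 + V) * Mx := by ring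

lemma exists_max_t (P : ℕ → ℂ) (n : ℕ) : ∃ t ≤ n, ∀ s ≤ n, ‖P s‖ ≤ ‖P t‖ := by
  obtain ⟨t, ht, h⟩ := exists_max_image (range (n + 1)) (fun t => ‖P t‖) ⟨0, by simp⟩
  refine ⟨t, by rw [mem_range] at ht; omega, fun s hs => h s (mem_range.2 (by omega))⟩

lemma log_le_half (w : ℕ) (hw : 10 ^ 5 ≤ w) : Nat.log 2 w + 100 ≤ w / 2 := by
  have h1 : w < 2 ^ (w / 2 - 100) := by
    obtain ⟨u, hu⟩ : ∃ u, w / 2 - 100 = u := ⟨_, rfl⟩
    rw [hu]
    have h2 : w ≤ 2 * u + 201 := by omega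
    have h3 : 100 ≤ u := by omega
    clear hu hw
    have h4 : ∀ v : ℕ, 2 * (100 + v) + 201 < 2 ^ (100 + v) := by
      intro v
      induction v with
      | zero => norm_num
      | succ v ih =>
        have : 2 ^ (100 + (v + 1)) = 2 * 2 ^ (100 + v) := by ring
        omega
    have := h4 (u - 100)
    have h5 : 100 + (u - 100) = u := by omega
    rw [h5] at this
    omega
  have h2 : Nat.log 2 w < w / 2 - 100 := Nat.log_lt_of_lt_pow (by omega) h1
  omega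

lemma core (w m q r₀ ρ : ℕ) (f : ℕ → ℝ) (α V : ℝ) (g : ℕ → ℂ) (hw : 10 ^ 5 ≤ w)
    (hm : m < w / 200) (hq : q ∈ oct m) (hf : ∀ t, |f t| ≤ 1) (hV : 0 ≤ V)
    (hg : ∀ t < 2 ^ w, ‖g t‖ ≤ 1)
    (hgV : ∑ t ∈ range (2 ^ w - 1), ‖g (t + 1) - g t‖ ≤ V) (hrho : ρ + 70 ≤ w / 2)
    (hM : ∀ k, k ≤ 2 ^ ρ → (∑ e : Fin (2 ^ ρ) → Fin (2 ^ (w - ρ)), smp f m (kA q r₀ α) e k) /
      ((2 : ℂ) ^ (w - ρ)) ^ (2 ^ ρ) =
    (∑ t ∈ range (2 ^ w + 2 ^ m), ((f t * wt m (k * 2 ^ (w - ρ)) t : ℝ) : ℂ) * kA q r₀ α t) /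
      2 ^ w) :
    ∃ k ≤ 2 ^ ρ, ‖wm f w (fun t => kA q r₀ α t * g t)‖ ^ 2 ≤
    2 * (1 + V) ^ 2 * (avE (2 ^ ρ) (2 ^ (w - ρ)) (fun e =>
      ‖smp f m (kA q r₀ α) e k‖ ^ 2) + 100 / (2 ^ ρ) ^ 2) := by
  have hRD' : 2 ^ ρ * 2 ^ (w - ρ) = 2 ^ w := by
    rw [← pow_add, Nat.add_sub_cancel' (by omega)]
  have hRr : ((2 : ℝ) ^ ρ) = ((2 ^ ρ : ℕ) : ℝ) := by push_cast; rfl
  have hDc : ((2 : ℂ) ^ (w - ρ)) = ((2 ^ (w - ρ) : ℕ) : ℂ) := by push_cast; rfl
  have hqD' : q ≤ 2 ^ (w - ρ) := by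
    unfold oct at hq
    rw [mem_filter, mem_Ioc] at hq
    exact hq.1.2.trans (Nat.pow_le_pow_right (by norm_num) (by omega))
  have hRm' : 2 * (4 * 2 ^ m) * 2 ^ ρ ≤ 2 ^ w := by
    calc 2 * (4 * 2 ^ m) * 2 ^ ρ = 2 ^ (3 + m + ρ) := by ring
      _ ≤ 2 ^ w := Nat.pow_le_pow_right (by norm_num) (by omega)
  have hR0' : 0 < 2 ^ ρ := by positivity
  have hD0' : 0 < 2 ^ (w - ρ) := by positivity
  rw [hRr]
  rw [hDc] at hM
  generalize 2 ^ ρ = R at *
  generalize 2 ^ (w - ρ) = D at *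
  have hR0 : (0 : ℝ) < R := by exact_mod_cast hR0'
  have hD0 : 0 < D := hD0'
  have hRD : R * D = 2 ^ w := hRD'
  have hD0r : (0 : ℝ) < D := by exact_mod_cast hD0
  have hRDr : (R : ℝ) * D = 2 ^ w := by exact_mod_cast hRD
  have hq1 : q ≤ 2 ^ (m + 1) ∧ 0 < q := by
    unfold oct at hq
    rw [mem_filter, mem_Ioc] at hq
    exact ⟨hq.1.2, hq.2.pos⟩
  set F : ℕ → ℂ := fun t => (f t : ℂ) * kA q r₀ α t with hFdef
  have hFn : ∀ t, ‖F t‖ ≤ |DR q (r₀ + t)| := by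
    intro t
    simp only [hFdef]
    unfold kA
    rw [norm_mul, norm_mul, Complex.norm_real, Complex.norm_real, norm_ee, mul_one,
      Real.norm_eq_abs, Real.norm_eq_abs]
    calc |f t| * |DR q (r₀ + t)| ≤ 1 * |DR q (r₀ + t)| :=
          mul_le_mul_of_nonneg_right (hf t) (abs_nonneg _)
      _ = _ := one_mul _
  have hsum : ∀ n₀ L : ℕ, ∑ t ∈ range L, ‖F (n₀ + t)‖ ≤ 2 * L + q := by
    intro n₀ L
    calc ∑ t ∈ range L, ‖F (n₀ + t)‖ ≤ ∑ t ∈ range L, |DR q (r₀ + n₀ + t)| := by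
          apply sum_le_sum
          intro t _
          have := hFn (n₀ + t)
          rwa [← add_assoc] at this
      _ ≤ 2 * L + q := sum_DR q _ L hq1.2
  obtain ⟨t, ht, hmax⟩ := exists_max_t (fun t => ∑ s ∈ range t, F s) (2 ^ w)
  have hk : t / D ≤ R := by
    apply Nat.div_le_of_le_mul
    rw [mul_comm, hRD]; exact ht
  refine ⟨t / D, hk, ?_⟩
  set k := t / D with hkdef
  have hkD : k * D ≤ t := Nat.div_mul_le_self t D
  have hkD2 : t < k * D + D := by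
    have := Nat.lt_mul_div_succ t hD0
    rw [mul_add, mul_one, mul_comm] at this
    exact this
  -- the partial sum at t is close to the partial sum at k D
  have hqD : (q : ℝ) ≤ D := by exact_mod_cast hqD'
  have h1 : ‖∑ s ∈ range t, F s‖ ≤ ‖∑ s ∈ range (k * D), F s‖ + 3 * D := by
    have e1 : ∑ s ∈ range t, F s = ∑ s ∈ range (k * D), F s +
        ∑ s ∈ range (t - k * D), F (k * D + s) := by
      rw [← sum_range_add]; congr 2; omega
    rw [e1]
    refine (norm_add_le _ _).trans (add_le_add le_rfl ?_)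
    calc ‖∑ s ∈ range (t - k * D), F (k * D + s)‖ ≤ ∑ s ∈ range (t - k * D), ‖F (k * D + s)‖ :=
          norm_sum_le _ _
      _ ≤ ∑ s ∈ range D, ‖F (k * D + s)‖ := by
          apply sum_le_sum_of_subset_of_nonneg
          · exact range_subset_range.2 (by omega)
          · intro s _ _; exact norm_nonneg _
      _ ≤ 2 * D + q := hsum _ _
      _ ≤ 3 * D := by linarith
  -- Abel
  have h2 : ‖∑ s ∈ range (2 ^ w), F s * g s‖ ≤ (1 + V) * (‖∑ s ∈ range (k * D), F s‖ + 3 * D) := by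
    refine (abel F g (2 ^ w) V ‖∑ s ∈ range t, F s‖ (by positivity) hg hgV hmax).trans ?_
    exact mul_le_mul_of_nonneg_left h1 (by linarith)
  have h3 : wm f w (fun t => kA q r₀ α t * g t) = (∑ s ∈ range (2 ^ w), F s * g s) / 2 ^ w := by
    unfold wm
    congr 1
    apply sum_congr rfl
    intro s _
    simp only [hFdef]
    ring
  -- the mean over the samples
  set z : (Fin R → Fin D) → ℂ := fun e => smp f m (kA q r₀ α) e k with hz
  have hME := hM k hk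
  have hME2 : (∑ e, z e) / (D : ℂ) ^ R =
      (∑ t ∈ range (2 ^ w + 2 ^ m), (wt m (k * D) t : ℂ) * F t) / 2 ^ w := by
    simp only [hz]
    rw [hME]
    congr 1
    apply sum_congr rfl
    intro s _
    simp only [hFdef]
    push_cast
    ring
  have hkR : k * D ≤ 2 ^ w + 2 ^ m := by
    calc k * D ≤ R * D := Nat.mul_le_mul_right _ hk
      _ = 2 ^ w := hRD
      _ ≤ _ := by omega
  have h4 := wsum F m (k * D) (2 ^ w + 2 ^ m) (4 * 2 ^ m) hkR (by
    intro n₀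
    refine (hsum n₀ (2 ^ m)).trans ?_
    have : (q : ℝ) ≤ 2 * 2 ^ m := by
      have := hq1.1
      rw [pow_succ, mul_comm] at this
      exact_mod_cast this
    push_cast
    linarith)
  have hw0 : (0 : ℝ) < 2 ^ w := by positivity
  have h5 : ‖(∑ s ∈ range (k * D), F s)‖ / 2 ^ w ≤ ‖(∑ e, z e) / (D : ℂ) ^ R‖ + 1 / R := by
    rw [hME2]
    have e1 : ‖(∑ t ∈ range (2 ^ w + 2 ^ m), (wt m (k * D) t : ℂ) * F t) / 2 ^ w‖ =
        ‖∑ t ∈ range (2 ^ w + 2 ^ m), (wt m (k * D) t : ℂ) * F t‖ / 2 ^ w := by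
      rw [norm_div, norm_pow]
      norm_num
    rw [e1]
    have e2 : ‖(∑ s ∈ range (k * D), F s)‖ ≤
        ‖∑ t ∈ range (2 ^ w + 2 ^ m), (wt m (k * D) t : ℂ) * F t‖ + 2 * (4 * 2 ^ m) := by
      have := norm_sub_norm_le (∑ s ∈ range (k * D), F s)
        (∑ t ∈ range (2 ^ w + 2 ^ m), (wt m (k * D) t : ℂ) * F t)
      rw [norm_sub_rev] at this
      linarith
    have e3 : (2 * (4 * 2 ^ m) : ℝ) / 2 ^ w ≤ 1 / R := by
      rw [div_le_div_iff₀ hw0 hR0]
      rw [one_mul]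
      exact_mod_cast hRm'
    calc ‖(∑ s ∈ range (k * D), F s)‖ / 2 ^ w
        ≤ (‖∑ t ∈ range (2 ^ w + 2 ^ m), (wt m (k * D) t : ℂ) * F t‖ + 2 * (4 * 2 ^ m)) / 2 ^ w :=
          div_le_div_of_nonneg_right e2 hw0.le
      _ = ‖∑ t ∈ range (2 ^ w + 2 ^ m), (wt m (k * D) t : ℂ) * F t‖ / 2 ^ w +
            2 * (4 * 2 ^ m) / 2 ^ w := add_div _ _ _
      _ ≤ _ := by linarith
  have h6 := sq_mean R D hD0 z
  set a : ℝ := ‖(∑ e, z e) / (D : ℂ) ^ R‖ with ha
  have ha0 : 0 ≤ a := norm_nonneg _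
  set A : ℝ := avE R D (fun e => ‖z e‖ ^ 2) with hA
  have h7 : ‖wm f w (fun t => kA q r₀ α t * g t)‖ ≤ (1 + V) * (a + 4 / R) := by
    rw [h3, norm_div, norm_pow]
    have e1 : ‖(2 : ℂ)‖ = 2 := by norm_num
    rw [e1, div_le_iff₀ hw0]
    refine h2.trans ?_
    rw [mul_assoc]
    apply mul_le_mul_of_nonneg_left _ (by linarith)
    have e2 : ‖∑ s ∈ range (k * D), F s‖ ≤ (a + 1 / R) * 2 ^ w := by
      rwa [div_le_iff₀ hw0] at h5
    have e3 : (3 : ℝ) * D = 3 / R * 2 ^ w := by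
      rw [← hRDr]; field_simp
    have e4 : (a + 4 / R) * 2 ^ w = (a + 1 / R) * 2 ^ w + 3 / R * 2 ^ w := by ring
    rw [e3, e4]
    linarith
  have h8 : ‖wm f w (fun t => kA q r₀ α t * g t)‖ ^ 2 ≤ ((1 + V) * (a + 4 / R)) ^ 2 :=
    pow_le_pow_left₀ (norm_nonneg _) h7 2
  have h9 : (a + 4 / R) ^ 2 ≤ 2 * (A + 100 / (R : ℝ) ^ 2) := by
    have e1 : (a + 4 / R) ^ 2 ≤ 2 * (a ^ 2 + (4 / R) ^ 2) := by nlinarith [sq_nonneg (a - 4 / R)]
    have e2 : (4 / (R : ℝ)) ^ 2 ≤ 100 / (R : ℝ) ^ 2 := by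
      rw [div_pow]
      exact div_le_div_of_nonneg_right (by norm_num) (by positivity)
    linarith
  calc ‖wm f w (fun t => kA q r₀ α t * g t)‖ ^ 2 ≤ ((1 + V) * (a + 4 / R)) ^ 2 := h8
    _ = (1 + V) ^ 2 * (a + 4 / R) ^ 2 := by ring
    _ ≤ (1 + V) ^ 2 * (2 * (A + 100 / (R : ℝ) ^ 2)) :=
        mul_le_mul_of_nonneg_left h9 (by positivity)
    _ = 2 * (1 + V) ^ 2 * (A + 100 / (R : ℝ) ^ 2) := by ring

theorem pf_ABL (hM : T_MEA) : T_ABL := by
  refine ⟨10 ^ 5, ?_⟩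
  intro w m q r₀ f α V g hw hm hq hf hV hg hgV
  have hlog := log_le_half w hw
  have hrho : rho w + 70 ≤ w / 2 := by unfold rho; omega
  have hMw := fun k => hM w m k f (kA q r₀ α) hw hm
  generalize rho w = ρ at *
  exact core w m q r₀ ρ f α V g hw hm hq hf hV hg hgV hrho hMw

end Pool.Agent.H1.ES
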