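import Pool.Agent.H93.ES.Targets
import Pool.Agent.H93.EB.Basic

/-!
# MP_c59857_nt, row BLU: a logarithmic sum is bounded by the means over the blocks
-/

set_option autoImplicit false

open Finset Pool.Agent.H18.MR Pool.Agent.H93.DE Pool.Agent.H6.N4D Pool.Agent.H93
  Pool.Agent.H93.ES

namespace Pool.Agent.H1.ES

lemma sum_blocks (G : ℕ → ℝ) (N : ℕ) : ∀ Q : ℕ,
    ∑ n ∈ range (Q * N), G n = ∑ i ∈ range Q, ∑ k ∈ range N, G (i * N + k) := by
  intro Q
  induction Q with
  | zero => simp
  | succ Q ih => rw [Nat.succ_mul, sum_range_add, sum_range_succ, ih]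

lemma sum_split (g : ℕ → ℝ) : ∀ Q : ℕ, ∑ i ∈ range (Q + 1), g i = g 0 + ∑ i ∈ Icc 1 Q, g i := by
  intro Q
  induction Q with
  | zero => simp
  | succ Q ih => rw [sum_range_succ, ih, sum_Icc_succ_top (by omega)]; ring

lemma range_eq_hs (b : ℝ) (N : ℕ) :
    ∑ k ∈ range (N + 1), b / (k : ℝ) = b * EB.hs N := by
  rw [sum_split (fun k => b / (k : ℝ)) N]
  unfold EB.hs
  rw [mul_sum]
  simp only [Nat.cast_zero, div_zero, zero_add]
  exact sum_congr rfl fun n _ => by ring

lemma log_nat_nonneg (N : ℕ) : 0 ≤ Real.log N := Real.log_natCast_nonneg N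

theorem pf_BLU : T_BLU := by
  intro X N F b hN hX hb hF
  have hlogN : 0 ≤ Real.log N := log_nat_nonneg N
  have hN0 : (0 : ℝ) < N := by exact_mod_cast hN
  rcases Nat.lt_or_ge X N with hXN | hXN
  · have h1 : X / N - 1 = 0 := by rw [Nat.div_eq_of_lt hXN]
    rw [h1]
    have h2 : EB.lg X F ≤ b * (1 + Real.log X) := by
      calc EB.lg X F ≤ EB.lg X (fun _ => b) := EB.lg_mono fun n _ => (hF n).2
        _ = b * EB.lg X (fun _ => 1) := EB.lg_const X b
        _ ≤ b * (1 + Real.log X) := mul_le_mul_of_nonneg_left (EB.lg_one_le X) hb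
    have h3 : Real.log X ≤ Real.log N := by
      apply Real.log_le_log
      · exact_mod_cast (by omega : 0 < X)
      · exact_mod_cast hXN.le
    have h4 : b * (1 + Real.log X) ≤ b * (1 + Real.log N) :=
      mul_le_mul_of_nonneg_left (by linarith) hb
    have h5 : 0 ≤ b * (1 + Real.log N) := by positivity
    have h6 : ∑ i ∈ Icc (1 : ℕ) 0, 1 / (i : ℝ) * ((∑ k ∈ range N, F (i * N + k)) / N) = 0 := by simp
    rw [h6]
    linarith
  · have hQ : 1 ≤ X / N := (Nat.one_le_div_iff (by omega)).2 hXN
    obtain ⟨Q, hQe⟩ : ∃ Q, X / N = Q + 1 := ⟨X / N - 1, by omega⟩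
    rw [hQe, Nat.add_sub_cancel]
    set G : ℕ → ℝ := fun n => F n / n with hG
    have hG0 : ∀ n, 0 ≤ G n := fun n => div_nonneg (hF n).1 (by positivity)
    have hXlt : X < (Q + 2) * N := by
      have := Nat.lt_mul_div_succ X (by omega : 0 < N)
      rw [hQe] at this
      calc X < N * (Q + 1 + 1) := this
        _ = (Q + 2) * N := by ring
    have h1 : EB.lg X F ≤ ∑ n ∈ range ((Q + 2) * N), G n := by
      unfold EB.lg
      apply sum_le_sum_of_subset_of_nonneg
      · intro n hn
        rw [mem_Icc] at hn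
        exact mem_range.2 (by omega)
      · intro n _ _; exact hG0 n
    rw [sum_blocks, sum_range_succ, sum_split] at h1
    have h2 : ∑ k ∈ range N, G (0 * N + k) ≤ b * (1 + Real.log N) := by
      calc ∑ k ∈ range N, G (0 * N + k) = ∑ k ∈ range N, G k := by simp
        _ ≤ ∑ k ∈ range (N + 1), G k :=
            sum_le_sum_of_subset_of_nonneg (range_subset_range.2 (by omega)) fun n _ _ => hG0 n
        _ ≤ ∑ k ∈ range (N + 1), b / (k : ℝ) :=
            sum_le_sum fun k _ => div_le_div_of_nonneg_right (hF k).2 (by positivity)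
        _ = b * EB.hs N := range_eq_hs b N
        _ ≤ b * (1 + Real.log N) := mul_le_mul_of_nonneg_left (EB.hs_le N) hb
    have h3 : ∑ k ∈ range N, G ((Q + 1) * N + k) ≤ b := by
      calc ∑ k ∈ range N, G ((Q + 1) * N + k) ≤ ∑ k ∈ range N, b / N := by
            apply sum_le_sum
            intro k _
            apply div_le_div₀ hb (hF _).2 hN0
            push_cast
            have e1 : (0 : ℝ) ≤ k := by positivity
            have e2 : (0 : ℝ) ≤ Q * N := by positivity
            nlinarith
        _ = b := by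
            rw [sum_const, card_range, nsmul_eq_mul]
            field_simp
    have h4 : ∑ i ∈ Icc 1 Q, ∑ k ∈ range N, G (i * N + k) ≤
        ∑ i ∈ Icc 1 Q, 1 / (i : ℝ) * ((∑ k ∈ range N, F (i * N + k)) / N) := by
      apply sum_le_sum
      intro i hi
      have hi1 : 1 ≤ i := (mem_Icc.1 hi).1
      have hi0 : (0 : ℝ) < i := by exact_mod_cast hi1
      have e0 : 1 / (i : ℝ) * ((∑ k ∈ range N, F (i * N + k)) / N) =
          ∑ k ∈ range N, F (i * N + k) / (i * N) := by
        rw [sum_div, mul_sum]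
        apply sum_congr rfl
        intro k _
        field_simp
      rw [e0]
      apply sum_le_sum
      intro k _
      apply div_le_div_of_nonneg_left (hF _).1 (by positivity)
      push_cast
      have e1 : (0 : ℝ) ≤ k := by positivity
      linarith
    have h5 : b ≤ b * (1 + Real.log N) := by nlinarith
    linarith

end Pool.Agent.H1.ES
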