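import Pool.Agent.H93.ES.Targets
import Pool.Agent.H3.BES.Fin

/-!
# MP_c59857_nt, row QSU: the sum of the reciprocals of the primes of a level is bounded
-/

set_option autoImplicit false

open Finset Pool.Agent.H18.MR Pool.Agent.H93.DE Pool.Agent.H6.N4D Pool.Agent.H93
  Pool.Agent.H93.ES

namespace Pool.Agent.H1.ES

theorem pf_QSU : T_QSU := by
  obtain ⟨W, hW⟩ := Pool.Agent.H3.BES.msu_of Pool.Agent.H20.ENM.pf_QMS
  refine ⟨max W 1, lt_of_lt_of_le one_pos (le_max_right _ _), fun w => ?_⟩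
  exact (hW w).trans (le_max_left _ _)

end Pool.Agent.H1.ES
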